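import Mathlib

set_option autoImplicit false

namespace Pool.Agent.Results.MP_7a7a2a_an.BoxCounterexample

open Filter Topology InnerProductSpace

section
variable {E : Type} [NormedAddCommGroup E] [InnerProductSpace ℝ E] [FiniteDimensional ℝ E]

/-- The Bouligand tangent cone. -/
def TCone (X : Set E) (x : E) : Set E :=
  {v | ∃ (t : ℕ → ℝ) (w : ℕ → E), (∀ k, 0 < t k) ∧ Tendsto t atTop (𝓝 0) ∧
    Tendsto w atTop (𝓝 v) ∧ ∀ k, x + t k • w k ∈ X}

/-- The set of nearest points of `K` to `w`. -/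
def Proj (K : Set E) (w : E) : Set E := {p | p ∈ K ∧ ∀ q ∈ K, ‖w - p‖ ≤ ‖w - q‖}

/-- `x` is stationary for the minimization of `f` on `X`. -/
def Stationary (X : Set E) (f : E → ℝ) (x : E) : Prop :=
  ∀ v ∈ TCone X x, 0 ≤ ⟪gradient f x, v⟫_ℝ

/-- `f` is continuously differentiable on a neighbourhood of `X`. -/
def SmoothNear (X : Set E) (f : E → ℝ) : Prop :=
  ∃ U : Set E, IsOpen U ∧ X ⊆ U ∧ ContDiffOn ℝ 1 f U

/-- There is no apocalypse on `X`: if `x k ∈ X` tends to `x` and the norms of the projections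
`p k` of `-∇ f (x k)` on the tangent cones at `x k` tend to zero, then `x` is stationary. -/
def ApocalypseFree (X : Set E) : Prop :=
  ∀ f : E → ℝ, SmoothNear X f → ∀ (x : E) (xs p : ℕ → E), (∀ k, xs k ∈ X) →
    Tendsto xs atTop (𝓝 x) → (∀ k, p k ∈ Proj (TCone X (xs k)) (-gradient f (xs k))) →
    Tendsto (fun k => ‖p k‖) atTop (𝓝 0) → Stationary X f x

/-- A run of P²GD with Armijo backtracking with parameters `abar, β, c`: `v k` is a projection of
`-∇ f (x k)` on the tangent cone at `x k`, the trial point `y k j` is a projection on `X` of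
`x k + abar β^j v k`, and the next iterate `x (k+1)` is the trial point `y k (J k)`, where `J k`
is the least `j` such that the trial point satisfies the sufficient decrease condition (so the
backtracking terminates at every iteration). -/
structure Run (X : Set E) (f : E → ℝ) (abar β c : ℝ) (x : ℕ → E) (v : ℕ → E) (y : ℕ → ℕ → E)
    (J : ℕ → ℕ) : Prop where
  start : x 0 ∈ X
  dir : ∀ k, v k ∈ Proj (TCone X (x k)) (-gradient f (x k))
  trial : ∀ k j, y k j ∈ Proj X (x k + (abar * β ^ j) • v k)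
  next : ∀ k, x (k + 1) = y k (J k)
  armijo : ∀ k, f (y k (J k)) ≤ f (x k) - c * (abar * β ^ J k) * ‖v k‖ ^ 2
  largest : ∀ k, ∀ i < J k, ¬ f (y k i) ≤ f (x k) - c * (abar * β ^ i) * ‖v k‖ ^ 2

lemma zero_mem_TCone {X : Set E} {x : E} (hx : x ∈ X) : (0 : E) ∈ TCone X x := by
  refine ⟨fun k => 1 / ((k : ℝ) + 1), fun _ => 0, fun k => by positivity,
    tendsto_one_div_add_atTop_nhds_zero_nat, tendsto_const_nhds, fun k => ?_⟩
  simpa using hx

lemma smul_mem_TCone {X : Set E} {x v : E} (hv : v ∈ TCone X x) {s : ℝ} (hs : 0 < s) :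
    s • v ∈ TCone X x := by
  obtain ⟨t, w, h1, h2, h3, h4⟩ := hv
  refine ⟨fun k => s⁻¹ * t k, fun k => s • w k, fun k => mul_pos (inv_pos.2 hs) (h1 k), ?_,
    h3.const_smul s, fun k => ?_⟩
  · simpa using h2.const_mul s⁻¹
  · have : (s⁻¹ * t k) • s • w k = t k • w k := by
      rw [smul_smul]; congr 1; field_simp
    rw [this]; exact h4 k

lemma smul_mem_TCone' {X : Set E} {x v : E} (hx : x ∈ X) (hv : v ∈ TCone X x) {s : ℝ}
    (hs : 0 ≤ s) : s • v ∈ TCone X x := by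
  rcases hs.eq_or_lt with rfl | hs
  · rw [zero_smul]; exact zero_mem_TCone hx
  · exact smul_mem_TCone hv hs

lemma proj_le {K : Set E} (hK : ∀ v ∈ K, ∀ s : ℝ, 0 ≤ s → s • v ∈ K) {w p : E}
    (hp : p ∈ Proj K w) {v : E} (hv : v ∈ K) : ⟪w, v⟫_ℝ ≤ ‖p‖ * ‖v‖ := by
  have expand : ∀ (u : E) (t : ℝ), ‖w - t • u‖ ^ 2 = ‖w‖ ^ 2 - 2 * t * ⟪w, u⟫_ℝ + t ^ 2 * ‖u‖ ^ 2 := by
    intro u t
    rw [norm_sub_sq_real, real_inner_smul_right, norm_smul, mul_pow, Real.norm_eq_abs, sq_abs]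
    ring
  have sq : ∀ q ∈ K, ‖w - p‖ ^ 2 ≤ ‖w - q‖ ^ 2 := fun q hq =>
    pow_le_pow_left₀ (norm_nonneg _) (hp.2 q hq) 2
  have e1 := expand p 1
  rw [one_smul] at e1
  -- `⟪w, p⟫ ≤ ‖p‖²`
  have h1 : ⟪w, p⟫_ℝ ≤ ‖p‖ ^ 2 := by
    by_contra hcon
    push Not at hcon
    have hpos : 0 < ⟪w, p⟫_ℝ := lt_of_le_of_lt (sq_nonneg _) hcon
    rcases eq_or_ne p 0 with h0 | h0
    · rw [h0] at hpos; simp at hpos
    · have hp2 : 0 < ‖p‖ ^ 2 := by positivity
      set t := ⟪w, p⟫_ℝ / ‖p‖ ^ 2 with ht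
      have h2 := sq (t • p) (hK p hp.1 t (by positivity))
      rw [expand, e1] at h2
      have h3 : t * ‖p‖ ^ 2 = ⟪w, p⟫_ℝ := by rw [ht]; field_simp
      have h4 : t ^ 2 * ‖p‖ ^ 2 = t * ⟪w, p⟫_ℝ := by rw [pow_two, mul_assoc, h3]
      rw [h4] at h2
      have h5 : 1 < t := by rw [ht, one_lt_div hp2]; exact hcon
      nlinarith
  rcases le_or_gt ⟪w, v⟫_ℝ 0 with h0 | h0
  · exact h0.trans (by positivity)
  · have hv0 : v ≠ 0 := by rintro rfl; simp at h0
    have hv2 : 0 < ‖v‖ ^ 2 := by positivity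
    set t := ⟪w, v⟫_ℝ / ‖v‖ ^ 2 with ht
    have h2 := sq (t • v) (hK v hv t (by positivity))
    rw [expand, e1] at h2
    have h3 : t * ‖v‖ ^ 2 = ⟪w, v⟫_ℝ := by rw [ht]; field_simp
    have h4 : t ^ 2 * ‖v‖ ^ 2 = t * ⟪w, v⟫_ℝ := by rw [pow_two, mul_assoc, h3]
    rw [h4] at h2
    have h5 : t * ⟪w, v⟫_ℝ ≤ ‖p‖ ^ 2 := by nlinarith
    have h6 : ⟪w, v⟫_ℝ ^ 2 ≤ (‖p‖ * ‖v‖) ^ 2 := by
      calc ⟪w, v⟫_ℝ ^ 2 = (t * ⟪w, v⟫_ℝ) * ‖v‖ ^ 2 := by
            rw [mul_right_comm, h3]; ring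
        _ ≤ ‖p‖ ^ 2 * ‖v‖ ^ 2 := mul_le_mul_of_nonneg_right h5 hv2.le
        _ = _ := by ring
    exact (pow_le_pow_iff_left₀ h0.le (by positivity) two_ne_zero).1 h6

lemma sub_mem_TCone {X : Set E} (hX : Convex ℝ X) {x z : E} (hx : x ∈ X) (hz : z ∈ X) :
    z - x ∈ TCone X x := by
  refine ⟨fun k => 1 / ((k : ℝ) + 1), fun _ => z - x, fun k => by positivity,
    tendsto_one_div_add_atTop_nhds_zero_nat, tendsto_const_nhds, fun k => ?_⟩
  refine hX.add_smul_sub_mem hx hz ⟨by positivity, ?_⟩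
  rw [div_le_one (by positivity)]
  linarith [(Nat.cast_nonneg k : (0 : ℝ) ≤ k)]

/-- Convex closed sets are apocalypse-free. -/
lemma apocalypseFree_of_convex {X : Set E} (hX : Convex ℝ X) (hcl : IsClosed X) :
    ApocalypseFree X := by
  rintro f ⟨U, hU, hXU, hf⟩ x xs p hxs hlim hp hp0
  have hx : x ∈ X := hcl.mem_of_tendsto hlim (Eventually.of_forall hxs)
  have hgrad : ContinuousAt (gradient f) x := by
    have h1 : ContinuousOn (fderiv ℝ f) U := hf.continuousOn_fderiv_of_isOpen hU le_rfl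
    have h2 : ContinuousAt (fderiv ℝ f) x := h1.continuousAt (hU.mem_nhds (hXU hx))
    exact (toDual ℝ E).symm.continuous.continuousAt.comp h2
  have hg : Tendsto (fun k => gradient f (xs k)) atTop (𝓝 (gradient f x)) := hgrad.tendsto.comp hlim
  have key : ∀ z ∈ X, 0 ≤ ⟪gradient f x, z - x⟫_ℝ := by
    intro z hz
    have h1 : ∀ k, ⟪-gradient f (xs k), z - xs k⟫_ℝ ≤ ‖p k‖ * ‖z - xs k‖ := fun k =>
      proj_le (fun v hv s hs => smul_mem_TCone' (hxs k) hv hs) (hp k) (sub_mem_TCone hX (hxs k) hz)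
    have h2 : Tendsto (fun k => ⟪-gradient f (xs k), z - xs k⟫_ℝ) atTop
        (𝓝 ⟪-gradient f x, z - x⟫_ℝ) := hg.neg.inner (tendsto_const_nhds.sub hlim)
    have h3 : Tendsto (fun k => ‖p k‖ * ‖z - xs k‖) atTop (𝓝 (0 * ‖z - x‖)) :=
      hp0.mul (tendsto_const_nhds.sub hlim).norm
    have h4 := le_of_tendsto_of_tendsto' h2 h3 h1
    rw [zero_mul, inner_neg_left] at h4
    linarith
  rintro v ⟨t, w, ht, _, hw, hmem⟩
  refine ge_of_tendsto' (tendsto_const_nhds.inner hw) fun k => ?_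
  have h1 := key _ (hmem k)
  rw [add_sub_cancel_left, real_inner_smul_right] at h1
  exact nonneg_of_mul_nonneg_right h1 (ht k)

end

/-- the plane -/
abbrev E2 : Type := EuclideanSpace ℝ (Fin 2)

/-- the rectangle `[-1, 3] × [-2, 0]`. -/
def box : Set E2 := {z | (-1 ≤ z 0 ∧ z 0 ≤ 3) ∧ (-2 ≤ z 1 ∧ z 1 ≤ 0)}

/-- the (constant) gradient of the objective. -/
noncomputable def g : E2 := !₂[-1, -1]

/-- the linear objective `f (z) = - z 0 - z 1`. -/
noncomputable def f : E2 → ℝ := fun z => ⟪g, z⟫_ℝ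

lemma f_eq (z : E2) : f z = - z 0 - z 1 := by
  simp [f, g, PiLp.inner_apply, Fin.sum_univ_two]
  ring

lemma grad_f (z : E2) : gradient f z = g := by
  apply HasGradientAt.gradient
  rw [hasGradientAt_iff_hasFDerivAt]
  exact (toDual ℝ E2 g).hasFDerivAt

lemma box_convex : Convex ℝ box := by
  intro x hx y hy a b ha hb hab
  obtain ⟨⟨h1, h2⟩, h3, h4⟩ := hx
  obtain ⟨⟨k1, k2⟩, k3, k4⟩ := hy
  have e0 : (a • x + b • y : E2) 0 = a * x 0 + b * y 0 := by simp
  have e1 : (a • x + b • y : E2) 1 = a * x 1 + b * y 1 := by simp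
  refine ⟨⟨?_, ?_⟩, ?_, ?_⟩
  · rw [e0]; nlinarith
  · rw [e0]; nlinarith
  · rw [e1]; nlinarith
  · rw [e1]; nlinarith

lemma box_closed : IsClosed box := by
  have c0 : Continuous fun z : E2 => z 0 := by fun_prop
  have c1 : Continuous fun z : E2 => z 1 := by fun_prop
  exact ((isClosed_le continuous_const c0).inter (isClosed_le c0 continuous_const)).inter
    ((isClosed_le continuous_const c1).inter (isClosed_le c1 continuous_const))

lemma norm_sq (z : E2) : ‖z‖ ^ 2 = z 0 ^ 2 + z 1 ^ 2 := by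
  rw [EuclideanSpace.norm_eq, Real.sq_sqrt (by positivity), Fin.sum_univ_two]
  simp

lemma box_bounded : Bornology.IsBounded box := by
  rw [isBounded_iff_forall_norm_le]
  refine ⟨4, fun z hz => ?_⟩
  obtain ⟨⟨h1, h2⟩, h3, h4⟩ := hz
  have : ‖z‖ ^ 2 ≤ 4 ^ 2 := by rw [norm_sq]; nlinarith
  exact (pow_le_pow_iff_left₀ (norm_nonneg _) (by norm_num) two_ne_zero).1 this

/-- interior points have full tangent cone. -/
lemma TCone_interior {x : E2} (h0 : -1 < x 0 ∧ x 0 < 3) (h1 : -2 < x 1 ∧ x 1 < 0) (v : E2) :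
    v ∈ TCone box x := by
  have c0 : Continuous fun z : E2 => z 0 := by fun_prop
  have c1 : Continuous fun z : E2 => z 1 := by fun_prop
  have hopen : IsOpen {z : E2 | (-1 < z 0 ∧ z 0 < 3) ∧ (-2 < z 1 ∧ z 1 < 0)} :=
    ((isOpen_lt continuous_const c0).inter (isOpen_lt c0 continuous_const)).inter
      ((isOpen_lt continuous_const c1).inter (isOpen_lt c1 continuous_const))
  obtain ⟨ε, hε, hball⟩ := Metric.isOpen_iff.1 hopen x ⟨h0, h1⟩
  have hs : 0 < ε / (‖v‖ + 1) := by positivity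
  refine ⟨fun k => (ε / (‖v‖ + 1)) * (1 / ((k : ℝ) + 1)), fun _ => v, fun k => by positivity,
    ?_, tendsto_const_nhds, fun k => ?_⟩
  · simpa using tendsto_one_div_add_atTop_nhds_zero_nat.const_mul (ε / (‖v‖ + 1))
  · have hmem : x + ((ε / (‖v‖ + 1)) * (1 / ((k : ℝ) + 1))) • v ∈ Metric.ball x ε := by
      rw [Metric.mem_ball, dist_eq_norm, add_sub_cancel_left, norm_smul, Real.norm_eq_abs,
        abs_of_pos (by positivity)]
      have h2 : 1 / ((k : ℝ) + 1) ≤ 1 := by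
        rw [div_le_one (by positivity)]
        linarith [(Nat.cast_nonneg k : (0 : ℝ) ≤ k)]
      calc (ε / (‖v‖ + 1)) * (1 / ((k : ℝ) + 1)) * ‖v‖
          ≤ (ε / (‖v‖ + 1)) * 1 * ‖v‖ := by
            apply mul_le_mul_of_nonneg_right _ (norm_nonneg _)
            exact mul_le_mul_of_nonneg_left h2 hs.le
        _ < (ε / (‖v‖ + 1)) * 1 * (‖v‖ + 1) := by
            apply mul_lt_mul_of_pos_left (by linarith) (by positivity)
        _ = ε := by field_simp
    obtain ⟨⟨a1, a2⟩, a3, a4⟩ := hball hmem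
    exact ⟨⟨a1.le, a2.le⟩, a3.le, a4.le⟩

/-- the iterates -/
noncomputable def x (k : ℕ) : E2 := !₂[3 / 2 * (1 - (1 / 3) ^ k), -(3 / 2) * (1 / 3) ^ k]

lemma x0 (k : ℕ) : x k 0 = 3 / 2 * (1 - (1 / 3) ^ k) := by simp [x]
lemma x1 (k : ℕ) : x k 1 = -(3 / 2) * (1 / 3) ^ k := by simp [x]

/-- the direction -/
noncomputable def v : E2 := !₂[1, 1]

lemma v0 : v 0 = 1 := by simp [v]
lemma v1 : v 1 = 1 := by simp [v]

lemma v_eq : v = -g := by
  ext i
  fin_cases i <;> simp [v, g]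

/-- the trial points -/
noncomputable def y (k j : ℕ) : E2 :=
  !₂[x k 0 + (1 / 3) ^ j, min 0 (x k 1 + (1 / 3) ^ j)]

lemma y0 (k j : ℕ) : y k j 0 = x k 0 + (1 / 3) ^ j := by simp [y]
lemma y1 (k j : ℕ) : y k j 1 = min 0 (x k 1 + (1 / 3) ^ j) := by simp [y]

lemma pw_pos (k : ℕ) : (0 : ℝ) < (1 / 3) ^ k := by positivity
lemma pw_le (k : ℕ) : ((1 : ℝ) / 3) ^ k ≤ 1 := pow_le_one₀ (by norm_num) (by norm_num)

lemma norm_le_of_sq {a b : E2} (h : ‖a‖ ^ 2 ≤ ‖b‖ ^ 2) : ‖a‖ ≤ ‖b‖ :=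
  (pow_le_pow_iff_left₀ (norm_nonneg _) (norm_nonneg _) two_ne_zero).1 h

lemma run : Run box f 1 (1 / 3) (9 / 10) x (fun _ => v) y id := by
  have hx0 : ∀ k, -1 < x k 0 ∧ x k 0 < 3 := by
    intro k
    rw [x0]
    have := pw_pos k
    have := pw_le k
    constructor <;> linarith
  have hx1 : ∀ k, -2 < x k 1 ∧ x k 1 < 0 := by
    intro k
    rw [x1]
    have := pw_pos k
    have := pw_le k
    constructor <;> linarith
  have hvn : ‖v‖ ^ 2 = 2 := by rw [norm_sq, v0, v1]; norm_num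
  refine ⟨?_, ?_, ?_, ?_, ?_, ?_⟩
  · exact ⟨⟨(hx0 0).1.le, (hx0 0).2.le⟩, (hx1 0).1.le, (hx1 0).2.le⟩
  · intro k
    refine ⟨TCone_interior (hx0 k) (hx1 k) v, fun q _ => ?_⟩
    rw [grad_f, ← v_eq, sub_self, norm_zero]
    exact norm_nonneg _
  · intro k j
    have h1 := pw_pos j
    have h2 := pw_le j
    have h3 := pw_pos k
    have h4 := pw_le k
    have a0 := x0 k
    have a1 := x1 k
    refine ⟨⟨⟨?_, ?_⟩, ?_, ?_⟩, fun q hq => ?_⟩
    · rw [y0, a0]; linarith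
    · rw [y0, a0]; linarith
    · rw [y1]; exact le_min (by norm_num) (by rw [a1]; linarith)
    · rw [y1]; exact min_le_left _ _
    · apply norm_le_of_sq
      have e0 : (x k + (1 * (1 / 3) ^ j : ℝ) • v - y k j : E2) 0 = 0 := by
        simp [y0, v0]
      have e1 : (x k + (1 * (1 / 3) ^ j : ℝ) • v - y k j : E2) 1 =
          x k 1 + (1 / 3) ^ j - min 0 (x k 1 + (1 / 3) ^ j) := by
        simp [y1, v1]
      have e3 : (x k + (1 * (1 / 3) ^ j : ℝ) • v - q : E2) 1 = x k 1 + (1 / 3) ^ j - q 1 := by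
        simp [v1]
      rw [norm_sq, norm_sq, e0, e1, e3]
      obtain ⟨_, _, hq1⟩ := hq
      have h5 := sq_nonneg ((x k + (1 * (1 / 3) ^ j : ℝ) • v - q : E2) 0)
      rcases le_total 0 (x k 1 + (1 / 3) ^ j) with h | h
      · rw [min_eq_left h]; nlinarith
      · rw [min_eq_right h]
        have h6 := sq_nonneg (x k 1 + (1 / 3) ^ j - q 1)
        nlinarith
  · intro k
    ext i
    have h1 := pw_pos k
    fin_cases i
    · change x (k + 1) 0 = y k k 0
      rw [y0, x0, x0, pow_succ]; ring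
    · change x (k + 1) 1 = y k k 1
      rw [y1, x1, x1, min_eq_right (by linarith), pow_succ]; ring
  · intro k
    have h1 := pw_pos k
    change f (y k k) ≤ f (x k) - 9 / 10 * (1 * (1 / 3) ^ k) * ‖v‖ ^ 2
    rw [f_eq, f_eq, y0, y1, hvn, x1, min_eq_right (by linarith)]
    linarith
  · intro k i hi
    have hi' : i < k := hi
    have h1 := pw_pos k
    have h2 : 3 * ((1 : ℝ) / 3) ^ k ≤ (1 / 3) ^ i := by
      have : ((1 : ℝ) / 3) ^ k ≤ (1 / 3) ^ (i + 1) :=
        pow_le_pow_of_le_one (by norm_num) (by norm_num) hi'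
      rw [pow_succ] at this
      linarith
    rw [not_le, f_eq, f_eq, y0, y1, hvn, x1, min_eq_left (by linarith)]
    linarith

/-- the limit point -/
noncomputable def xs : E2 := !₂[3 / 2, 0]

lemma lim : Tendsto x atTop (𝓝 xs) := by
  have hp : Tendsto (fun k : ℕ => ((1 : ℝ) / 3) ^ k) atTop (𝓝 0) :=
    tendsto_pow_atTop_nhds_zero_of_lt_one (by norm_num) (by norm_num)
  rw [tendsto_iff_norm_sub_tendsto_zero]
  have h1 : ∀ k, ‖x k - xs‖ ≤ 3 * (1 / 3) ^ k := by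
    intro k
    have h2 := pw_pos k
    have : ‖x k - xs‖ ^ 2 ≤ (3 * (1 / 3) ^ k) ^ 2 := by
      rw [norm_sq]
      have e0 : (x k - xs : E2) 0 = -(3 / 2) * (1 / 3) ^ k := by
        simp [x0, xs]; ring
      have e1 : (x k - xs : E2) 1 = -(3 / 2) * (1 / 3) ^ k := by
        simp [x1, xs]
      rw [e0, e1]
      nlinarith
    exact (pow_le_pow_iff_left₀ (norm_nonneg _) (by positivity) two_ne_zero).1 this
  exact squeeze_zero (fun k => norm_nonneg _) h1 (by simpa using hp.const_mul 3)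

lemma not_stationary : ¬ Stationary box f xs := by
  intro h
  have hmem : (!₂[1, 0] : E2) ∈ TCone box xs := by
    refine ⟨fun k => 1 / ((k : ℝ) + 1), fun _ => !₂[1, 0], fun k => by positivity,
      tendsto_one_div_add_atTop_nhds_zero_nat, tendsto_const_nhds, fun k => ?_⟩
    have h1 : (0 : ℝ) < 1 / ((k : ℝ) + 1) := by positivity
    have h2 : 1 / ((k : ℝ) + 1) ≤ 1 := by
      rw [div_le_one (by positivity)]
      linarith [(Nat.cast_nonneg k : (0 : ℝ) ≤ k)]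
    have e0 : (xs + (1 / ((k : ℝ) + 1)) • (!₂[1, 0] : E2) : E2) 0 = 3 / 2 + 1 / ((k : ℝ) + 1) := by
      simp [xs]
    have e1 : (xs + (1 / ((k : ℝ) + 1)) • (!₂[1, 0] : E2) : E2) 1 = 0 := by
      simp [xs]
    refine ⟨⟨?_, ?_⟩, ?_, ?_⟩
    · rw [e0]; linarith
    · rw [e0]; linarith
    · rw [e1]; norm_num
    · rw [e1]
  have := h _ hmem
  rw [grad_f] at this
  have h3 : ⟪g, (!₂[1, 0] : E2)⟫_ℝ = -1 := by
    change f _ = -1
    rw [f_eq]; simp
  rw [h3] at this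
  norm_num at this

/-- **Q1 is false**, even for a compact convex set `X` in the plane and a linear objective: there
is a run of P²GD with Armijo backtracking (terminating at every iteration) which converges to a
non-stationary point. -/
theorem result :
    ∃ (X : Set E2) (f : E2 → ℝ) (abar β c : ℝ) (x v : ℕ → E2) (y : ℕ → ℕ → E2) (J : ℕ → ℕ)
      (xlim : E2),
      X.Nonempty ∧ IsClosed X ∧ Convex ℝ X ∧ Bornology.IsBounded X ∧ ApocalypseFree X ∧
      IsLinearMap ℝ f ∧ ContDiff ℝ 1 f ∧ LocallyLipschitz (gradient f) ∧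
      Bornology.IsBounded {z ∈ X | f z ≤ f (x 0)} ∧
      0 < abar ∧ 0 < β ∧ β < 1 ∧ 0 < c ∧ c < 1 ∧ Run X f abar β c x v y J ∧
      Tendsto x atTop (𝓝 xlim) ∧ xlim ∈ X ∧ ¬ Stationary X f xlim := by
  refine ⟨box, f, 1, 1 / 3, 9 / 10, x, fun _ => v, y, id, xs, ⟨x 0, run.start⟩, box_closed,
    box_convex, box_bounded, apocalypseFree_of_convex box_convex box_closed, ?_, ?_, ?_,
    box_bounded.subset fun z hz => hz.1, by norm_num, by norm_num, by norm_num, by norm_num,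
    by norm_num, run, lim, ?_, not_stationary⟩
  · exact ⟨fun a b => inner_add_right _ _ _, fun s a => real_inner_smul_right _ _ _⟩
  · exact (toDual ℝ E2 g).contDiff
  · have : gradient f = fun _ => g := funext grad_f
    rw [this]
    exact LocallyLipschitz.const g
  · refine ⟨⟨?_, ?_⟩, ?_, ?_⟩ <;> simp [xs] <;> norm_num

end Pool.Agent.Results.MP_7a7a2a_an.BoxCounterexample
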